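import Pool.Agent.Q21.DW.Cnt

set_option autoImplicit false

/-! A power saving in all dyadic intervals gives a power saving. -/

namespace Pool.Agent.Q229.RR

open Pool.Agent.Q21.DW

lemma ps_dyadic (B : ℕ → Prop) (s : ℝ) (hs : 0 ≤ s)
    (h : ∀ ε : ℝ, 0 < ε → ∃ C : ℝ, ∀ X : ℕ, 1 ≤ X →
      ({n : ℕ | X < 2 * n ∧ n ≤ X ∧ B n}.ncard : ℝ) ≤ C * (X : ℝ) ^ (s + ε)) : PS s B := by
  classical
  intro t ht
  obtain ⟨C, hC⟩ := h (t - s) (by linarith)
  rw [add_sub_cancel] at hC
  have ht0 : 0 < t := by linarith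
  have h2t : (1 / 2 : ℝ) ^ t < 1 := Real.rpow_lt_one (by norm_num) (by norm_num) ht0
  set K : ℝ := |C| / (1 - (1 / 2 : ℝ) ^ t) with hK
  have hK0 : 0 ≤ K := div_nonneg (abs_nonneg _) (by linarith)
  have key : ∀ N : ℕ, (((Finset.Icc 1 N).filter B).card : ℝ) ≤ K * (N : ℝ) ^ t := by
    intro N
    induction N using Nat.strong_induction_on with
    | _ N ih =>
      rcases Nat.eq_zero_or_pos N with h0 | h0
      · subst h0
        simp only [Finset.Icc_eq_empty_of_lt (show (0 : ℕ) < 1 by norm_num), Finset.filter_empty,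
          Finset.card_empty, Nat.cast_zero]
        positivity
      · have hN' : (0 : ℝ) < N := by exact_mod_cast h0
        have h1 := ih (N / 2) (by omega)
        have h2 : ((N / 2 : ℕ) : ℝ) ^ t ≤ (1 / 2 : ℝ) ^ t * (N : ℝ) ^ t := by
          rw [← Real.mul_rpow (by norm_num) hN'.le]
          refine Real.rpow_le_rpow (Nat.cast_nonneg _) ?_ ht0.le
          have := @Nat.cast_div_le ℝ _ _ _ N 2
          push_cast at this
          linarith
        have hfin : {n : ℕ | N < 2 * n ∧ n ≤ N ∧ B n}.Finite :=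
          (Set.finite_le_nat N).subset fun n hn => hn.2.1
        have h3 : ((Finset.Icc 1 N).filter B).card ≤ ((Finset.Icc 1 (N / 2)).filter B).card +
            {n : ℕ | N < 2 * n ∧ n ≤ N ∧ B n}.ncard := by
          rw [Set.ncard_eq_toFinset_card _ hfin]
          refine (Finset.card_le_card ?_).trans (Finset.card_union_le _ _)
          intro n hn
          rw [Finset.mem_filter, Finset.mem_Icc] at hn
          rw [Finset.mem_union, Finset.mem_filter, Finset.mem_Icc, Set.Finite.mem_toFinset]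
          by_cases h4 : n ≤ N / 2
          · exact Or.inl ⟨⟨hn.1.1, h4⟩, hn.2⟩
          · exact Or.inr ⟨by omega, hn.1.2, hn.2⟩
        have h4 := hC N h0
        have h5 : C * (N : ℝ) ^ t ≤ |C| * (N : ℝ) ^ t :=
          mul_le_mul_of_nonneg_right (le_abs_self C) (by positivity)
        have h6 : |C| = K * (1 - (1 / 2 : ℝ) ^ t) := by
          rw [hK, div_mul_cancel₀ _ (by linarith)]
        calc (((Finset.Icc 1 N).filter B).card : ℝ)
            ≤ (((Finset.Icc 1 (N / 2)).filter B).card : ℝ) +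
                ({n : ℕ | N < 2 * n ∧ n ≤ N ∧ B n}.ncard : ℝ) := by exact_mod_cast h3
          _ ≤ K * ((1 / 2 : ℝ) ^ t * (N : ℝ) ^ t) + |C| * (N : ℝ) ^ t :=
            add_le_add (h1.trans (mul_le_mul_of_nonneg_left h2 hK0)) (h4.trans h5)
          _ = K * (N : ℝ) ^ t := by
            rw [h6]
            ring
  refine ⟨K, fun N _ => le_trans (Nat.cast_le.2 (card_mono fun m hm h5 => ⟨hm, h5⟩)) (key N)⟩

end Pool.Agent.Q229.RR
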